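import Mathlib
import Pool.Agent.Helper38.SG.CasDefs
import Pool.Agent.Helper38.SG.LinB
import Pool.Agent.Helper38.SG.SmoB

/-! # Sobolev gap, piece CAS-A: Casimir operators -/

set_option autoImplicit false

open Filter Topology Set MeasureTheory
open scoped RealInnerProductSpace ContDiff

universe u

namespace Pool.Agent.Helper28.SG

open Pool.Agent.Helper38.SG

namespace CasAux

section lin

variable {𝔤 : Type u} [NormedAddCommGroup 𝔤] [InnerProductSpace ℝ 𝔤]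
  {U : Type*} [AddCommGroup U] [Module ℝ U]

/-- contraction of a bilinear map with a projection -/
theorem contract (Q : 𝔤 →ₗ[ℝ] 𝔤 →ₗ[ℝ] U) {ι κ : Type*} [Fintype ι] [Fintype κ]
    (y : OrthonormalBasis ι ℝ 𝔤) (w : κ → 𝔤) (E C : 𝔤 →ₗ[ℝ] 𝔤)
    (hE : ∀ v, E v = ∑ a, ⟪w a, v⟫ • w a) :
    ∑ j, Q (y j) (C (E (y j))) = ∑ a, Q (w a) (C (w a)) := by
  have h1 : ∀ j, Q (y j) (C (E (y j))) = ∑ a, ⟪w a, y j⟫ • Q (y j) (C (w a)) := by
    intro j
    rw [hE, map_sum, map_sum]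
    refine Finset.sum_congr rfl fun a _ => ?_
    rw [map_smul, map_smul]
  simp only [h1]
  rw [Finset.sum_comm]
  refine Finset.sum_congr rfl fun a _ => ?_
  conv_rhs => rw [← y.sum_repr' (w a), map_sum, LinearMap.sum_apply]
  refine Finset.sum_congr rfl fun j _ => ?_
  rw [map_smul, LinearMap.smul_apply, real_inner_comm, y.sum_repr']

/-- moving an operator to the other side -/
theorem contract_adj (Q : 𝔤 →ₗ[ℝ] 𝔤 →ₗ[ℝ] U) {ι : Type*} [Fintype ι]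
    (y : OrthonormalBasis ι ℝ 𝔤) (A A' C : 𝔤 →ₗ[ℝ] 𝔤)
    (hA : ∀ u v, ⟪A u, v⟫ = ⟪u, A' v⟫) :
    ∑ j, Q (A (y j)) (C (y j)) = ∑ j, Q (y j) (C (A' (y j))) := by
  have h1 : ∀ j, Q (A (y j)) (C (y j)) = ∑ i, ⟪y i, A (y j)⟫ • Q (y i) (C (y j)) := by
    intro j
    conv_lhs => rw [← y.sum_repr' (A (y j)), map_sum, LinearMap.sum_apply]
    refine Finset.sum_congr rfl fun i _ => ?_
    rw [map_smul, LinearMap.smul_apply]
  simp only [h1]
  rw [Finset.sum_comm]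
  refine Finset.sum_congr rfl fun i _ => ?_
  conv_rhs => rw [← y.sum_repr' (A' (y i)), map_sum, map_sum]
  refine Finset.sum_congr rfl fun j _ => ?_
  rw [map_smul, map_smul, real_inner_comm, hA]

theorem proj_eq_sum (S : Submodule ℝ 𝔤) [S.HasOrthogonalProjection] {κ : Type*} [Fintype κ]
    (b : OrthonormalBasis κ ℝ S) (v : 𝔤) : S.starProjection v = ∑ a, ⟪(b a : 𝔤), v⟫ • (b a : 𝔤) := by
  rw [Submodule.starProjection_apply, b.orthogonalProjectionOnto_apply_eq_sum,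
    AddSubmonoidClass.coe_finsetSum]
  rfl

end lin

section calc_

variable {G 𝔤 : Type u} [Group G] [TopologicalSpace G] [IsTopologicalGroup G]
  [NormedAddCommGroup 𝔤] [InnerProductSpace ℝ 𝔤] [FiniteDimensional ℝ 𝔤] (L : LieData G 𝔤)
  {F : Type*} [NormedAddCommGroup F] [NormedSpace ℝ F]

theorem rD_add_left (X Y : 𝔤) (f : G → F) : L.rD (X + Y) f = L.rD X f + L.rD Y f := by
  funext x
  simp [LieData.rD]

theorem rD_smul_left (a : ℝ) (X : 𝔤) (f : G → F) : L.rD (a • X) f = a • L.rD X f := by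
  funext x
  simp [LieData.rD]

theorem smooth_diff {f : G → F} (hf : L.Smooth f) (x : G) :
    DifferentiableAt ℝ (fun X : 𝔤 => f (x * L.exp X)) 0 :=
  (hf x).differentiableAt (by simp)

theorem rD_add (X : 𝔤) {f g : G → F} (hf : L.Smooth f) (hg : L.Smooth g) :
    L.rD X (f + g) = L.rD X f + L.rD X g := by
  funext x
  have h := fderiv_add (smooth_diff L hf x) (smooth_diff L hg x)
  have h3 := congrArg (fun T : 𝔤 →L[ℝ] F => T X) h
  exact h3

theorem rD_const_smul {R : Type*} [Monoid R] [DistribMulAction R F] [SMulCommClass ℝ R F]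
    [ContinuousConstSMul R F] (X : 𝔤) (c : R) {f : G → F} (hf : L.Smooth f) :
    L.rD X (c • f) = c • L.rD X f := by
  funext x
  have h := fderiv_const_smul (smooth_diff L hf x) c
  have h3 := congrArg (fun T : 𝔤 →L[ℝ] F => T X) h
  exact h3

theorem rD_zero (X : 𝔤) : L.rD X (0 : G → F) = 0 := by
  funext x
  simp [LieData.rD]

theorem rD_eq {f : G → F} (hf : L.Smooth f) {X : 𝔤} {x : G} {d : F}
    (h : HasDerivAt (fun t : ℝ => f (x * L.exp (t • X))) d 0) : L.rD X f x = d := by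
  have h1 := L.hasDerivAt_rD hf X x 0
  rw [zero_smul, L.exp_zero, mul_one] at h1
  exact h1.unique h

/-- the second right derivatives as a bilinear map -/
noncomputable def Qr {f : G → F} (hf : L.Smooth f) (x : G) : 𝔤 →ₗ[ℝ] 𝔤 →ₗ[ℝ] F :=
  LinearMap.mk₂ ℝ (fun X Y => L.rD X (L.rD Y f) x)
    (fun X X' Y => by rw [rD_add_left]; rfl)
    (fun a X Y => by rw [rD_smul_left]; rfl)
    (fun X Y Y' => by
      rw [rD_add_left, rD_add L X (LieData.Smooth.rD L hf Y) (LieData.Smooth.rD L hf Y')]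
      rfl)
    (fun a X Y => by
      rw [rD_smul_left, rD_const_smul L X a (LieData.Smooth.rD L hf Y)]
      rfl)

theorem Qr_apply {f : G → F} (hf : L.Smooth f) (x : G) (X Y : 𝔤) :
    Qr L hf x X Y = L.rD X (L.rD Y f) x := rfl

theorem lD_add_left' (X Y : 𝔤) (f : G → F) : L.lD (X + Y) f = L.lD X f + L.lD Y f := by
  funext x
  simp only [LieData.lD, map_add, rD_add_left, Pi.add_apply]
  abel

theorem lD_smul_left' (a : ℝ) (X : 𝔤) (f : G → F) : L.lD (a • X) f = a • L.lD X f := by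
  funext x
  simp only [LieData.lD, map_smul, rD_smul_left, Pi.smul_apply, smul_neg]

theorem lD_add' (X : 𝔤) {f g : G → F} (hf : L.Smooth f) (hg : L.Smooth g) :
    L.lD X (f + g) = L.lD X f + L.lD X g := by
  funext x
  simp only [LieData.lD, rD_add L _ hf hg, Pi.add_apply]
  abel

theorem lD_smul' (X : 𝔤) (a : ℝ) {f : G → F} (hf : L.Smooth f) :
    L.lD X (a • f) = a • L.lD X f := by
  funext x
  simp only [LieData.lD, rD_const_smul L _ a hf, Pi.smul_apply, smul_neg]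

/-- the second left derivatives as a bilinear map -/
noncomputable def Ql {f : G → F} (hf : L.Smooth f) (x : G) : 𝔤 →ₗ[ℝ] 𝔤 →ₗ[ℝ] F :=
  LinearMap.mk₂ ℝ (fun X Y => L.lD X (L.lD Y f) x)
    (fun X X' Y => by rw [lD_add_left']; rfl)
    (fun a X Y => by rw [lD_smul_left']; rfl)
    (fun X Y Y' => by
      rw [lD_add_left', lD_add' L X (LieData.Smooth.lD L hf Y) (LieData.Smooth.lD L hf Y')]
      rfl)
    (fun a X Y => by
      rw [lD_smul_left', lD_smul' L X a (LieData.Smooth.lD L hf Y)]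
      rfl)

theorem Ql_apply {f : G → F} (hf : L.Smooth f) (x : G) (X Y : 𝔤) :
    Ql L hf x X Y = L.lD X (L.lD Y f) x := rfl

/-- the symmetrised second derivatives -/
theorem Ql_Qr {f : G → F} (hf : L.Smooth f) (x : G) (X Y : 𝔤) :
    Ql L hf x X Y + Ql L hf x Y X =
      Qr L hf x (L.Ad x⁻¹ X) (L.Ad x⁻¹ Y) + Qr L hf x (L.Ad x⁻¹ Y) (L.Ad x⁻¹ X) := by
  have h : ∀ Z, Ql L hf x Z Z = Qr L hf x (L.Ad x⁻¹ Z) (L.Ad x⁻¹ Z) := fun Z => L.lD_lD hf Z x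
  have h1 := h (X + Y)
  have h2 := h X
  have h3 := h Y
  simp only [map_add, LinearMap.add_apply] at h1
  rw [h2, h3] at h1
  have h4 : ∀ a b c d e f' : F, a + b + (c + d) = a + e + (f' + d) → c + b = f' + e := by
    intro a b c d e f' h
    have h5 : a + d + (c + b) = a + d + (f' + e) := by
      calc a + d + (c + b) = a + b + (c + d) := by abel
        _ = a + e + (f' + d) := h
        _ = a + d + (f' + e) := by abel
    exact add_left_cancel h5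
  exact h4 _ _ _ _ _ _ h1

end calc_

section inv_

variable {G 𝔤 : Type u} [Group G] [TopologicalSpace G] [IsTopologicalGroup G]
  [NormedAddCommGroup 𝔤] [InnerProductSpace ℝ 𝔤] [FiniteDimensional ℝ 𝔤] (P : ParData G 𝔤)

theorem hasDerivAt_Ad' (Z X : 𝔤) (t : ℝ) :
    HasDerivAt (fun s : ℝ => P.Ad (P.exp (s • Z)) X) (P.br Z (P.Ad (P.exp (t • Z)) X)) t := by
  have h := P.hasDerivAt_Ad Z (P.Ad (P.exp (t • Z)) X)
  have h0 : (0 : ℝ) = t - t := by ring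
  rw [h0] at h
  have h2 := HasDerivAt.comp_sub_const t t h
  refine h2.congr_of_eventuallyEq (Eventually.of_forall fun s => ?_)
  change P.Ad (P.exp (s • Z)) X = P.Ad (P.exp ((s - t) • Z)) (P.Ad (P.exp (t • Z)) X)
  rw [← Module.End.mul_apply, ← map_mul, ← P.exp_add_smul, sub_add_cancel]

/-- invariance of the form `⟪X, θ Y⟫` -/
theorem form_inv (g : G) (X Y : 𝔤) : ⟪P.Ad g X, P.θ (P.Ad g Y)⟫ = ⟪X, P.θ Y⟫ := by
  obtain ⟨⟨k, Z⟩, hg⟩ := P.polar.surjective g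
  have hg' : (k : G) * P.exp (Z : 𝔤) = g := hg
  rw [← hg', map_mul, Module.End.mul_apply, Module.End.mul_apply, ← P.Ad_θ _ k.2,
    P.Ad_isom _ k.2]
  -- exponentials
  let F : ℝ → ℝ := fun t => ⟪P.Ad (P.exp (t • (Z : 𝔤))) X, P.θ (P.Ad (P.exp (t • (Z : 𝔤))) Y)⟫
  have hF : ∀ t, HasDerivAt F 0 t := by
    intro t
    have h1 := hasDerivAt_Ad' P (Z : 𝔤) X t
    have h2 := hasDerivAt_Ad' P (Z : 𝔤) Y t
    have h3 : HasDerivAt (fun s : ℝ => P.θ (P.Ad (P.exp (s • (Z : 𝔤))) Y))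
        (P.θ (P.br (Z : 𝔤) (P.Ad (P.exp (t • (Z : 𝔤))) Y))) t :=
      (LinearMap.toContinuousLinearMap P.θ).hasFDerivAt.comp_hasDerivAt t h2
    have h4 := h1.inner ℝ h3
    have h5 : ⟪P.Ad (P.exp (t • (Z : 𝔤))) X, P.θ (P.br (Z : 𝔤) (P.Ad (P.exp (t • (Z : 𝔤))) Y))⟫ +
        ⟪P.br (Z : 𝔤) (P.Ad (P.exp (t • (Z : 𝔤))) X), P.θ (P.Ad (P.exp (t • (Z : 𝔤))) Y)⟫ = 0 := by
      rw [P.inv, P.θ_br]
      ring
    rw [h5] at h4
    exact h4
  have h6 : F 1 = F 0 := is_const_of_deriv_eq_zero (fun t => (hF t).differentiableAt)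
    (fun t => (hF t).deriv) 1 0
  have h7 : F 1 = ⟪P.Ad (P.exp (Z : 𝔤)) X, P.θ (P.Ad (P.exp (Z : 𝔤)) Y)⟫ := by
    simp only [F, one_smul]
  have h8 : F 0 = ⟪X, P.θ Y⟫ := by
    simp only [F, zero_smul, P.exp_zero, map_one, Module.End.one_apply]
  rw [← h7, h6, h8]

theorem θ_sa (X Y : 𝔤) : ⟪P.θ X, Y⟫ = ⟪X, P.θ Y⟫ := by
  conv_lhs => rw [← P.θ_θ Y]
  exact P.θ_isom _ _

theorem Ad_Ad (g h : G) (X : 𝔤) : P.Ad g (P.Ad h X) = P.Ad (g * h) X := by
  rw [map_mul, Module.End.mul_apply]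

/-- the adjoint of `Ad g` -/
theorem Ad_adj (g : G) (X Y : 𝔤) : ⟪P.Ad g X, Y⟫ = ⟪X, P.θ (P.Ad g⁻¹ (P.θ Y))⟫ := by
  have h := form_inv P g X (P.Ad g⁻¹ (P.θ Y))
  rw [Ad_Ad, mul_inv_cancel, map_one, Module.End.one_apply, P.θ_θ] at h
  exact h

end inv_

section M_

variable {G 𝔤 : Type u} [Group G] [TopologicalSpace G] [IsTopologicalGroup G] [T2Space G]
  [NormedAddCommGroup 𝔤] [InnerProductSpace ℝ 𝔤] [FiniteDimensional ℝ 𝔤] (P : ParData G 𝔤)

theorem m_θ {X : 𝔤} (hX : X ∈ P.𝔪) : P.θ X = X := P.mem_𝔨.1 hX.1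

theorem m_H0 {X : 𝔤} (hX : X ∈ P.𝔪) : P.br P.H0 X = 0 := hX.2

theorem exp_mem_M {X : 𝔤} (hX : X ∈ P.𝔪) (t : ℝ) : P.exp (t • X) ∈ P.M := by
  refine ⟨(P.exp_mem_K X).2 (m_θ P hX) t, fun H hH => ?_⟩
  refine P.Ad_exp_eq_self ?_
  rw [map_smul, LinearMap.smul_apply, P.br_skew P.br_self, P.H0_reg X (m_H0 P hX) H hH, neg_zero,
    smul_zero]

theorem Ad_mem_m {X : 𝔤} (hX : X ∈ P.𝔪) {m : G} (hm : m ∈ P.M) : P.Ad m X ∈ P.𝔪 := by
  refine ⟨?_, ?_⟩
  · rw [SetLike.mem_coe, P.mem_𝔨, ← P.Ad_θ m hm.1, m_θ P hX]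
  · have h1 : P.br P.H0 (P.Ad m X) = P.Ad m (P.br P.H0 X) := by
      rw [P.Ad_br, hm.2 _ P.H0.2]
    change P.br P.H0 (P.Ad m X) = 0
    rw [h1, m_H0 P hX, map_zero]

variable {P} {U : Type u} [NormedAddCommGroup U] [InnerProductSpace ℂ U] [FiniteDimensional ℂ U]
  (R : RepData P U)

/-- the one-parameter subgroup of `M` -/
def mexp (X : P.𝔪) (t : ℝ) : P.M := ⟨P.exp (t • (X : 𝔤)), exp_mem_M P X.2 t⟩

theorem map_mexp {f : G → U} (hf : f ∈ V R) (X : P.𝔪) (x : G) (t : ℝ) :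
    f (x * P.exp (t • (X : 𝔤))) = R.σ (mexp X t)⁻¹ (f x) := hf.2.1.map_M x (mexp X t)

/-- values of the functions of `V` -/
def vals : Set U := {u | ∃ f ∈ V R, ∃ x, f x = u}

theorem span_vals (h : ∃ f ∈ V R, f ≠ 0) : Submodule.span ℂ (vals R) = ⊤ := by
  have hinv : ∀ m, ∀ w ∈ Submodule.span ℂ (vals R), R.σ m w ∈ Submodule.span ℂ (vals R) := by
    intro m w hw
    induction hw using Submodule.span_induction with
    | mem w hw =>
      obtain ⟨f, hf, x, rfl⟩ := hw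
      have h3 := hf.2.1.map_M x m⁻¹
      rw [inv_inv] at h3
      rw [← h3]
      exact Submodule.subset_span ⟨f, hf, _, rfl⟩
    | zero => rw [map_zero]; exact Submodule.zero_mem _
    | add a b _ _ ha hb => rw [map_add]; exact Submodule.add_mem _ ha hb
    | smul c a _ ha => rw [map_smul]; exact Submodule.smul_mem _ c ha
  rcases R.irred (Submodule.span ℂ (vals R)) hinv with h1 | h1
  · exfalso
    obtain ⟨f, hf, hne⟩ := h
    apply hne
    funext x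
    have h2 : f x ∈ Submodule.span ℂ (vals R) := Submodule.subset_span ⟨f, hf, x, rfl⟩
    rw [h1, Submodule.mem_bot] at h2
    exact h2
  · exact h1

theorem hasDerivAt_vals {f : G → U} (hf : f ∈ V R) (X : P.𝔪) (x : G) :
    HasDerivAt (fun t : ℝ => R.σ (mexp X t)⁻¹ (f x)) (P.rD (X : 𝔤) f x) 0 := by
  have h := P.hasDerivAt_rD (smooth_of_mem_V hf) (X : 𝔤) x 0
  rw [zero_smul, P.exp_zero, mul_one] at h
  refine h.congr_of_eventuallyEq (Eventually.of_forall fun t => ?_)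
  exact (map_mexp R hf X x t).symm

theorem differentiable (h : ∃ f ∈ V R, f ≠ 0) (X : P.𝔪) (u : U) :
    DifferentiableAt ℝ (fun t : ℝ => R.σ (mexp X t)⁻¹ u) 0 := by
  have hu : u ∈ Submodule.span ℂ (vals R) := by rw [span_vals R h]; trivial
  induction hu using Submodule.span_induction with
  | mem w hw =>
    obtain ⟨f, hf, x, rfl⟩ := hw
    exact (hasDerivAt_vals R hf X x).differentiableAt
  | zero => simp
  | add a b _ _ ha hb =>
    simp only [map_add]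
    exact ha.add hb
  | smul c a _ ha =>
    simp only [map_smul]
    exact ha.const_smul c

/-- the differential of the representation of `M` (up to sign) -/
noncomputable def dA (h : ∃ f ∈ V R, f ≠ 0) (X : P.𝔪) : U →ₗ[ℂ] U where
  toFun u := deriv (fun t : ℝ => R.σ (mexp X t)⁻¹ u) 0
  map_add' a b := by
    have h1 := ((differentiable R h X a).hasDerivAt.add (differentiable R h X b).hasDerivAt).deriv
    rw [← h1]
    congr 1
    funext t
    exact map_add _ a b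
  map_smul' c a := by
    have h1 := ((differentiable R h X a).hasDerivAt.const_smul c).deriv
    rw [RingHom.id_apply, ← h1]
    congr 1
    funext t
    exact map_smul _ c a

theorem hasDerivAt_dA (h : ∃ f ∈ V R, f ≠ 0) (X : P.𝔪) (u : U) :
    HasDerivAt (fun t : ℝ => R.σ (mexp X t)⁻¹ u) (dA R h X u) 0 :=
  (differentiable R h X u).hasDerivAt

theorem dA_vals (h : ∃ f ∈ V R, f ≠ 0) (X : P.𝔪) {f : G → U} (hf : f ∈ V R) (x : G) :
    dA R h X (f x) = P.rD (X : 𝔤) f x := (hasDerivAt_vals R hf X x).deriv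

theorem ext_vals (h : ∃ f ∈ V R, f ≠ 0) {A B : U →ₗ[ℂ] U}
    (hAB : ∀ f ∈ V R, ∀ x, A (f x) = B (f x)) : A = B := by
  refine LinearMap.ext_on (span_vals R h) ?_
  rintro _ ⟨f, hf, x, rfl⟩
  exact hAB f hf x

/-- the bilinear map `(X, Y) ↦ dA X ∘ dA Y` -/
noncomputable def dB (h : ∃ f ∈ V R, f ≠ 0) : P.𝔪 →ₗ[ℝ] P.𝔪 →ₗ[ℝ] (U →ₗ[ℂ] U) :=
  let A : P.𝔪 →ₗ[ℝ] (U →ₗ[ℂ] U) :=
    { toFun := dA R h
      map_add' := fun X Y => ext_vals R h fun f hf x => by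
        rw [dA_vals R h _ hf, LinearMap.add_apply, dA_vals R h _ hf, dA_vals R h _ hf,
          Submodule.coe_add, rD_add_left]
        rfl
      map_smul' := fun c X => ext_vals R h fun f hf x => by
        rw [dA_vals R h _ hf, RingHom.id_apply, LinearMap.smul_apply, dA_vals R h _ hf,
          Submodule.coe_smul, rD_smul_left]
        rfl }
  LinearMap.mk₂ ℝ (fun X Y => A X ∘ₗ A Y)
    (fun X X' Y => by rw [map_add, LinearMap.add_comp])
    (fun a X Y => by rw [map_smul, LinearMap.smul_comp])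
    (fun X Y Y' => by rw [map_add, LinearMap.comp_add])
    (fun a X Y => by
      rw [map_smul]
      ext u
      simp only [LinearMap.comp_apply, LinearMap.smul_apply]
      have h1 : (a • (A Y u) : U) = ((a : ℂ) • (A Y u) : U) := (Complex.coe_smul a _).symm
      rw [h1, map_smul, Complex.coe_smul])

theorem dB_apply (h : ∃ f ∈ V R, f ≠ 0) (X Y : P.𝔪) (u : U) :
    dB R h X Y u = dA R h X (dA R h Y u) := rfl

/-- second right derivative in a direction of `𝔪` -/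
theorem rD_rD_m (h : ∃ f ∈ V R, f ≠ 0) (X : P.𝔪) {f : G → U} (hf : f ∈ V R) (x : G) :
    P.rD (X : 𝔤) (P.rD (X : 𝔤) f) x = dA R h X (dA R h X (f x)) := by
  refine rD_eq _ (LieData.Smooth.rD _ (smooth_of_mem_V hf) _) ?_
  have h1 : ∀ t : ℝ, P.rD (X : 𝔤) f (x * P.exp (t • (X : 𝔤))) =
      dA R h X (f (x * P.exp (t • (X : 𝔤)))) := fun t => (dA_vals R h X hf _).symm
  have h2 := hasDerivAt_vals R hf X x
  have h3 : HasDerivAt (fun t : ℝ => dA R h X (R.σ (mexp X t)⁻¹ (f x)))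
      (dA R h X (P.rD (X : 𝔤) f x)) 0 :=
    ((LinearMap.toContinuousLinearMap (dA R h X)).restrictScalars ℝ).hasFDerivAt.comp_hasDerivAt
      (0 : ℝ) h2
  rw [dA_vals R h X hf]
  refine h3.congr_of_eventuallyEq (Eventually.of_forall fun t => ?_)
  change P.rD (X : 𝔤) f (x * P.exp (t • (X : 𝔤))) = _
  rw [h1, map_mexp R hf X x t]

theorem dA_skew (h : ∃ f ∈ V R, f ≠ 0) (X : P.𝔪) (u w : U) :
    inner ℂ u (dA R h X w) = -inner ℂ (dA R h X u) w := by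
  have h1 := HasDerivAt.inner ℂ (hasDerivAt_dA R h X u) (hasDerivAt_dA R h X w)
  have h2 : ∀ t : ℝ, inner ℂ (R.σ (mexp X t)⁻¹ u) (R.σ (mexp X t)⁻¹ w) = inner ℂ u w := fun t =>
    (LinearMap.norm_map_iff_inner_map_map (R.σ (mexp X t)⁻¹)).1 (fun v => R.norm_σ _ v) u w
  simp only [h2] at h1
  have h3 := h1.unique (hasDerivAt_const (0 : ℝ) (inner ℂ u w : ℂ))
  have h4 : (mexp X (0 : ℝ)) = (1 : P.M) := Subtype.ext (by
    change P.exp ((0 : ℝ) • (X : 𝔤)) = 1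
    rw [zero_smul, P.exp_zero])
  rw [h4, inv_one, map_one, Module.End.one_apply, Module.End.one_apply] at h3
  exact eq_neg_of_add_eq_zero_left h3

/-- the conjugate by an element of `M` -/
def adm (m : P.M) : P.𝔪 →ₗ[ℝ] P.𝔪 where
  toFun X := ⟨P.Ad (m : G) (X : 𝔤), Ad_mem_m P X.2 m.2⟩
  map_add' X Y := Subtype.ext (map_add _ _ _)
  map_smul' a X := Subtype.ext (map_smul _ _ _)

theorem dA_conj (h : ∃ f ∈ V R, f ≠ 0) (m : P.M) (X : P.𝔪) (u : U) :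
    dA R h X (R.σ m u) = R.σ m (dA R h (adm m⁻¹ X) u) := by
  have h2 := hasDerivAt_dA R h (adm m⁻¹ X) u
  have h3 : HasDerivAt (fun t : ℝ => R.σ m (R.σ (mexp (adm m⁻¹ X) t)⁻¹ u))
      (R.σ m (dA R h (adm m⁻¹ X) u)) 0 :=
    ((LinearMap.toContinuousLinearMap (R.σ m)).restrictScalars ℝ).hasFDerivAt.comp_hasDerivAt
      (0 : ℝ) h2
  have h4 : ∀ t : ℝ, (mexp X t)⁻¹ * m = m * (mexp (adm m⁻¹ X) t)⁻¹ := by
    intro t
    have h5 : mexp (adm m⁻¹ X) t = m⁻¹ * mexp X t * m := by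
      apply Subtype.ext
      change P.exp (t • P.Ad ((m⁻¹ : P.M) : G) (X : 𝔤)) = _
      rw [← map_smul, P.exp_Ad]
      simp [mexp]
    rw [h5]
    group
  refine (hasDerivAt_dA R h X (R.σ m u)).unique (h3.congr_of_eventuallyEq
    (Eventually.of_forall fun t => ?_))
  change R.σ (mexp X t)⁻¹ (R.σ m u) = R.σ m (R.σ (mexp (adm m⁻¹ X) t)⁻¹ u)
  rw [← Module.End.mul_apply, ← map_mul, h4, map_mul, Module.End.mul_apply]

/-- the Casimir operator of `M` is a real scalar -/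
theorem exists_scalar (h : ∃ f ∈ V R, f ≠ 0) :
    ∃ l : ℝ, ∀ u : U, ∑ i, dA R h (stdOrthonormalBasis ℝ P.𝔪 i)
      (dA R h (stdOrthonormalBasis ℝ P.𝔪 i) u) = (l : ℂ) • u := by
  let b := stdOrthonormalBasis ℝ P.𝔪
  let C : Module.End ℂ U := ∑ i, dB R h (b i) (b i)
  have hC : ∀ u, C u = ∑ i, dA R h (b i) (dA R h (b i) u) := by
    intro u
    simp only [C, LinearMap.sum_apply, dB_apply]
  -- commutation with `σ`
  have hcomm : ∀ (m : P.M) u, C (R.σ m u) = R.σ m (C u) := by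
    intro m u
    have h1 : ∑ i, dB R h (adm m⁻¹ (b i)) (adm m⁻¹ (b i)) = C := by
      have h2 := contract_adj (dB R h) b (adm m⁻¹) (adm m) (adm m⁻¹) (by
        intro u v
        change ⟪P.Ad ((m⁻¹ : P.M) : G) (u : 𝔤), (v : 𝔤)⟫ = ⟪(u : 𝔤), P.Ad (m : G) (v : 𝔤)⟫
        have h3 := P.Ad_isom (m : G) m.2.1 (P.Ad ((m⁻¹ : P.M) : G) (u : 𝔤)) (v : 𝔤)
        rw [Ad_Ad] at h3
        rw [← h3]
        simp)
      rw [h2]
      refine Finset.sum_congr rfl fun i _ => ?_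
      congr 1
      apply Subtype.ext
      change P.Ad ((m⁻¹ : P.M) : G) (P.Ad (m : G) (b i : 𝔤)) = (b i : 𝔤)
      rw [Ad_Ad]
      simp
    rw [hC, ← h1]
    simp only [LinearMap.sum_apply, dB_apply, map_sum, dA_conj]
  obtain ⟨f0, hf0, hne⟩ := h
  have hnt : Nontrivial U := by
    obtain ⟨x, hx⟩ := Function.ne_iff.1 hne
    exact ⟨f0 x, 0, hx⟩
  obtain ⟨c, hc⟩ := Module.End.exists_eigenvalue C
  have htop : Module.End.eigenspace C c = ⊤ := by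
    rcases R.irred (Module.End.eigenspace C c) (fun m w hw => by
      rw [Module.End.mem_eigenspace_iff] at hw ⊢
      rw [hcomm, hw, map_smul]) with h1 | h1
    · exact absurd h1 hc
    · exact h1
  have hCc : ∀ u, C u = c • u := fun u =>
    Module.End.mem_eigenspace_iff.1 (by rw [htop]; trivial)
  obtain ⟨u0, hu0⟩ := exists_ne (0 : U)
  -- reality
  have hreal : c * ((‖u0‖ ^ 2 : ℝ) : ℂ) = ((-∑ i, ‖dA R ⟨f0, hf0, hne⟩ (b i) u0‖ ^ 2 : ℝ) : ℂ) := by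
    have h1 : inner ℂ u0 (C u0) = c * ((‖u0‖ ^ 2 : ℝ) : ℂ) := by
      rw [hCc, inner_smul_right, inner_self_eq_norm_sq_to_K]
      push_cast
      rfl
    rw [← h1, hC, inner_sum]
    push_cast
    rw [← Finset.sum_neg_distrib]
    refine Finset.sum_congr rfl fun i _ => ?_
    rw [dA_skew, inner_self_eq_norm_sq_to_K]
    rfl
  have hn : ((‖u0‖ ^ 2 : ℝ) : ℂ) ≠ 0 := by
    rw [Complex.ofReal_ne_zero]
    exact pow_ne_zero _ (norm_ne_zero_iff.2 hu0)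
  refine ⟨(-∑ i, ‖dA R ⟨f0, hf0, hne⟩ (b i) u0‖ ^ 2) / ‖u0‖ ^ 2, fun u => ?_⟩
  rw [← hC, hCc, Complex.ofReal_div, ← hreal, mul_div_cancel_right₀ _ hn]

end M_

end CasAux

/-- CAS-A: the Casimir operator of `G` acts by a real scalar. -/
theorem casimir_scalar {G 𝔤 : Type u} [Group G] [TopologicalSpace G] [IsTopologicalGroup G] [T2Space G]
  [NormedAddCommGroup 𝔤] [InnerProductSpace ℝ 𝔤] [FiniteDimensional ℝ 𝔤] {P : ParData G 𝔤}
  {U : Type u} [NormedAddCommGroup U] [InnerProductSpace ℂ U] [FiniteDimensional ℂ U]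
    (R : RepData P U) : ∃ a : ℝ, ∀ f ∈ V R, ∀ {ι : Type} [Fintype ι]
    (y : OrthonormalBasis ι ℝ 𝔤),
    ∑ j, P.lD (y j) (P.lD (y j) f) = (a : ℂ) • f - (2 : ℂ) • cas P f := by
  classical
  by_cases hne : ∃ f ∈ V R, f ≠ 0
  swap
  · refine ⟨0, fun f hf ι _ y => ?_⟩
    have hf0 : f = 0 := by
      by_contra h
      exact hne ⟨f, hf, h⟩
    have h1 : ∀ X : 𝔤, P.lD X (0 : G → U) = 0 := by
      intro X
      funext x
      simp [LieData.lD, LieData.rD]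
    rw [hf0]
    simp [h1, cas]
  obtain ⟨l, hl⟩ := CasAux.exists_scalar R hne
  let bn := stdOrthonormalBasis ℝ P.𝔫
  let bm := stdOrthonormalBasis ℝ P.𝔪
  let ba := stdOrthonormalBasis ℝ P.𝔞
  let bk := stdOrthonormalBasis ℝ P.𝔨
  let N : ℝ := ∑ i, (R.ν (ba i : 𝔤) ^ 2 + P.ρ (ba i : 𝔤) ^ 2)
  refine ⟨-(N + l), fun f hf ι _ y => ?_⟩
  have hs : P.Smooth f := smooth_of_mem_V hf
  funext x
  -- right derivatives along `𝔫` and `𝔞`
  have hN : ∀ X ∈ P.𝔫, P.rD X f = 0 := by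
    intro X hX
    funext x
    refine CasAux.rD_eq _ hs ?_
    have h1 : (fun t : ℝ => f (x * P.exp (t • X))) = fun _ => f x := by
      funext t
      exact hf.2.1.map_N x _ (P.𝔫.smul_mem t hX)
    rw [h1]
    exact hasDerivAt_const _ _
  let χ : 𝔤 → ℂ := fun H => -(Complex.I * (R.ν H : ℝ) + (P.ρ H : ℝ))
  have hA : ∀ H ∈ P.𝔞, P.rD H f = χ H • f := by
    intro H hH
    funext x
    refine CasAux.rD_eq _ hs ?_
    have h1 : (fun t : ℝ => f (x * P.exp (t • H))) =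
        fun t : ℝ => Complex.exp ((t : ℂ) * χ H) • f x := by
      funext t
      rw [hf.2.1.map_A x _ (P.𝔞.smul_mem t hH)]
      congr 2
      simp only [χ, map_smul, smul_eq_mul, Complex.ofReal_mul]
      ring
    rw [h1]
    have h2 : HasDerivAt (fun t : ℝ => Complex.exp ((t : ℂ) * χ H)) (χ H) 0 := by
      have h3 : HasDerivAt (fun t : ℝ => (t : ℂ) * χ H) (1 * χ H) 0 :=
        (Complex.ofRealCLM.hasDerivAt (x := (0 : ℝ))).mul_const (χ H)
      have h4 := h3.cexp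
      simpa using h4
    exact h2.smul_const (f x)
  -- the sum of right derivatives
  let Q := CasAux.Qr P.toLieData hs x
  have hQ : ∀ X Y, Q X Y = P.rD X (P.rD Y f) x := fun X Y => rfl
  have hSr : ∑ j, Q (y j) (P.θ (y j)) = ((N + l : ℝ) : ℂ) • f x := by
    have hsk := P.br_self
    have hjac := P.jacobi
    have hsum : ∑ j, Q (y j) (P.θ (y j)) =
        ∑ j, Q (y j) (P.θ ((P.Enb : 𝔤 →ₗ[ℝ] 𝔤) (y j))) + ∑ j, Q (y j) (P.θ ((P.Em : 𝔤 →ₗ[ℝ] 𝔤) (y j))) +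
        ∑ j, Q (y j) (P.θ ((P.Ea : 𝔤 →ₗ[ℝ] 𝔤) (y j))) + ∑ j, Q (y j) (P.θ ((P.En : 𝔤 →ₗ[ℝ] 𝔤) (y j))) := by
      rw [← Finset.sum_add_distrib, ← Finset.sum_add_distrib, ← Finset.sum_add_distrib]
      refine Finset.sum_congr rfl fun j _ => ?_
      have hd : P.θ (y j) = P.θ ((P.Enb : 𝔤 →ₗ[ℝ] 𝔤) (y j)) + P.θ ((P.Em : 𝔤 →ₗ[ℝ] 𝔤) (y j)) +
          P.θ ((P.Ea : 𝔤 →ₗ[ℝ] 𝔤) (y j)) + P.θ ((P.En : 𝔤 →ₗ[ℝ] 𝔤) (y j)) := by
        rw [← map_add, ← map_add, ← map_add]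
        exact congrArg P.θ (P.decomp hsk hjac (y j))
      rw [hd, map_add, map_add, map_add]
    have hEn : ∀ v, (P.En : 𝔤 →ₗ[ℝ] 𝔤) v = ∑ a, ⟪(bn a : 𝔤), v⟫ • (bn a : 𝔤) := fun v =>
      CasAux.proj_eq_sum P.𝔫 bn v
    have hEm : ∀ v, (P.Em : 𝔤 →ₗ[ℝ] 𝔤) v = ∑ a, ⟪(bm a : 𝔤), v⟫ • (bm a : 𝔤) := fun v =>
      CasAux.proj_eq_sum P.𝔪 bm v
    have hEa : ∀ v, (P.Ea : 𝔤 →ₗ[ℝ] 𝔤) v = ∑ a, ⟪(ba a : 𝔤), v⟫ • (ba a : 𝔤) := fun v =>
      CasAux.proj_eq_sum P.𝔞 ba v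
    have hEnb : ∀ v, (P.Enb : 𝔤 →ₗ[ℝ] 𝔤) v = ∑ a, ⟪P.θ (bn a : 𝔤), v⟫ • P.θ (bn a : 𝔤) := by
      intro v
      change P.θ ((P.En : 𝔤 →ₗ[ℝ] 𝔤) (P.θ v)) = _
      rw [hEn, map_sum]
      refine Finset.sum_congr rfl fun a _ => ?_
      rw [map_smul, CasAux.θ_sa]
    rw [hsum, CasAux.contract Q y _ _ P.θ hEnb, CasAux.contract Q y _ _ P.θ hEm,
      CasAux.contract Q y _ _ P.θ hEa, CasAux.contract Q y _ _ P.θ hEn]
    have hT1 : ∑ a, Q (P.θ (bn a : 𝔤)) (P.θ (P.θ (bn a : 𝔤))) = 0 := by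
      refine Finset.sum_eq_zero fun a _ => ?_
      rw [P.θ_θ, hQ, hN _ (bn a).2, CasAux.rD_zero]
      rfl
    have hT2 : ∑ a, Q (bm a : 𝔤) (P.θ (bm a : 𝔤)) = (l : ℂ) • f x := by
      rw [← hl (f x)]
      refine Finset.sum_congr rfl fun a _ => ?_
      rw [CasAux.m_θ P (bm a).2, hQ]
      exact CasAux.rD_rD_m R hne (bm a) hf x
    have hT3 : ∑ a, Q (ba a : 𝔤) (P.θ (ba a : 𝔤)) = (-∑ a, χ (ba a : 𝔤) ^ 2) • f x := by
      rw [← Finset.sum_neg_distrib, Finset.sum_smul]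
      refine Finset.sum_congr rfl fun a _ => ?_
      rw [P.θ_𝔞 _ (ba a).2, map_neg, hQ, hA _ (ba a).2, CasAux.rD_const_smul _ _ _ hs,
        hA _ (ba a).2, Pi.smul_apply, Pi.smul_apply, smul_smul, neg_smul, pow_two]
    have hS := P.sum_br_θ_mem hsk hjac bn
    have hT4 : ∑ a, Q (bn a : 𝔤) (P.θ (bn a : 𝔤)) =
        χ (∑ a, P.br (bn a : 𝔤) (P.θ (bn a : 𝔤))) • f x := by
      have h1 : ∀ a, Q (bn a : 𝔤) (P.θ (bn a : 𝔤)) =
          P.rD (P.br (bn a : 𝔤) (P.θ (bn a : 𝔤))) f x := by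
        intro a
        rw [← P.rD_commutator hs, hN _ (bn a).2, CasAux.rD_zero, hQ]
        simp
      have h2 : ∑ a, P.rD (P.br (bn a : 𝔤) (P.θ (bn a : 𝔤))) f x =
          P.rD (∑ a, P.br (bn a : 𝔤) (P.θ (bn a : 𝔤))) f x := by
        simp only [LieData.rD, map_sum]
      simp only [h1]
      rw [h2, hA _ hS]
      rfl
    have hSexp : ∑ a, P.br (bn a : 𝔤) (P.θ (bn a : 𝔤)) =
        ∑ i, (-2 * P.ρ (ba i : 𝔤)) • (ba i : 𝔤) := by
      have h1 := ba.sum_repr' ⟨_, hS⟩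
      have h2 := congrArg Subtype.val h1
      rw [AddSubmonoidClass.coe_finsetSum] at h2
      refine h2.symm.trans ?_
      refine Finset.sum_congr rfl fun i _ => ?_
      rw [Submodule.coe_smul]
      congr 1
      rw [← P.inner_sum_br_θ hsk hjac bn (ba i).2, real_inner_comm]
      rfl
    have hχ : χ (∑ a, P.br (bn a : 𝔤) (P.θ (bn a : 𝔤))) =
        ∑ i, 2 * (P.ρ (ba i : 𝔤) : ℂ) * (Complex.I * (R.ν (ba i : 𝔤) : ℝ) + (P.ρ (ba i : 𝔤) : ℝ)) := by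
      rw [hSexp]
      simp only [χ, map_sum, map_smul, smul_eq_mul]
      push_cast
      rw [Finset.mul_sum, ← Finset.sum_add_distrib, ← Finset.sum_neg_distrib]
      refine Finset.sum_congr rfl fun i _ => ?_
      ring
    rw [hT1, hT2, hT3, hT4, hχ, zero_add, ← add_smul, ← add_smul]
    congr 1
    have hI : Complex.I ^ 2 = -1 := Complex.I_sq
    have hNc : ((N : ℝ) : ℂ) = ∑ i, ((R.ν (ba i : 𝔤) : ℂ) ^ 2 + (P.ρ (ba i : 𝔤) : ℂ) ^ 2) := by
      simp only [N]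
      push_cast
      rfl
    have h5 : -∑ a, χ (ba a : 𝔤) ^ 2 +
        ∑ i, 2 * (P.ρ (ba i : 𝔤) : ℂ) * (Complex.I * (R.ν (ba i : 𝔤) : ℝ) + (P.ρ (ba i : 𝔤) : ℝ)) =
        ((N : ℝ) : ℂ) := by
      rw [hNc, ← Finset.sum_neg_distrib, ← Finset.sum_add_distrib]
      refine Finset.sum_congr rfl fun i _ => ?_
      simp only [χ]
      linear_combination (-(R.ν (ba i : 𝔤) : ℂ) ^ 2) * hI
    rw [add_assoc, h5]
    push_cast
    ring
  -- left derivatives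
  let Q' := CasAux.Ql P.toLieData hs x
  have hQ' : ∀ X Y, Q' X Y = P.lD X (P.lD Y f) x := fun X Y => rfl
  have hSl : ∑ j, Q' (y j) (P.θ (y j)) = ∑ j, Q (y j) (P.θ (y j)) := by
    let A : 𝔤 →ₗ[ℝ] 𝔤 := P.Ad x⁻¹
    let A' : 𝔤 →ₗ[ℝ] 𝔤 := P.θ ∘ₗ P.Ad x ∘ₗ P.θ
    have hAA : ∀ u v, ⟪A u, v⟫ = ⟪u, A' v⟫ := by
      intro u v
      have h := CasAux.Ad_adj P x⁻¹ u v
      rw [inv_inv] at h
      exact h
    have hid : ∀ v, A (P.θ (A' v)) = P.θ v := by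
      intro v
      change P.Ad x⁻¹ (P.θ (P.θ (P.Ad x (P.θ v)))) = P.θ v
      rw [P.θ_θ, CasAux.Ad_Ad, inv_mul_cancel, map_one, Module.End.one_apply]
    have h1 : ∑ j, Q' (P.θ (y j)) (y j) = ∑ j, Q' (y j) (P.θ (y j)) :=
      CasAux.contract_adj Q' y P.θ P.θ LinearMap.id (CasAux.θ_sa P)
    have h2 : ∑ j, Q (A (y j)) (A (P.θ (y j))) = ∑ j, Q (y j) (P.θ (y j)) := by
      have h := CasAux.contract_adj Q y A A' (A ∘ₗ P.θ) hAA
      simp only [LinearMap.comp_apply, hid] at h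
      exact h
    have h3 : ∑ j, Q (A (P.θ (y j))) (A (y j)) = ∑ j, Q (y j) (P.θ (y j)) := by
      have h := CasAux.contract_adj Q y (A ∘ₗ P.θ) (P.θ ∘ₗ A') A (by
        intro u v
        change ⟪A (P.θ u), v⟫ = ⟪u, P.θ (A' v)⟫
        rw [hAA, CasAux.θ_sa])
      simp only [LinearMap.comp_apply, hid] at h
      exact h
    have h4 : ∑ j, Q' (y j) (P.θ (y j)) + ∑ j, Q' (P.θ (y j)) (y j) =
        ∑ j, Q (A (y j)) (A (P.θ (y j))) + ∑ j, Q (A (P.θ (y j))) (A (y j)) := by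
      rw [← Finset.sum_add_distrib, ← Finset.sum_add_distrib]
      exact Finset.sum_congr rfl fun j _ => CasAux.Ql_Qr _ hs x _ _
    rw [h1, h2, h3, ← two_smul ℝ, ← two_smul ℝ (∑ j, Q (y j) (P.θ (y j)))] at h4
    exact smul_right_injective U (two_ne_zero (α := ℝ)) h4
  have hk : ∑ j, Q' (y j) (y j) + ∑ j, Q' (y j) (P.θ (y j)) =
      (2 : ℝ) • ∑ i, Q' (bk i : 𝔤) (bk i : 𝔤) := by
    let E : 𝔤 →ₗ[ℝ] 𝔤 := (1 / 2 : ℝ) • (LinearMap.id + P.θ)
    have hE : ∀ v, E v = ∑ a, ⟪(bk a : 𝔤), v⟫ • (bk a : 𝔤) := by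
      intro v
      have hmem : E v ∈ P.𝔨 := by
        rw [P.mem_𝔨]
        change P.θ ((1 / 2 : ℝ) • (v + P.θ v)) = (1 / 2 : ℝ) • (v + P.θ v)
        rw [map_smul, map_add, P.θ_θ, add_comm]
      have h1 := bk.sum_repr' ⟨E v, hmem⟩
      have h2 := congrArg Subtype.val h1
      rw [AddSubmonoidClass.coe_finsetSum] at h2
      refine h2.symm.trans ?_
      refine Finset.sum_congr rfl fun a _ => ?_
      rw [Submodule.coe_smul]
      congr 1
      change ⟪(bk a : 𝔤), (1 / 2 : ℝ) • (v + P.θ v)⟫ = _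
      have h3 : ⟪(bk a : 𝔤), P.θ v⟫ = ⟪(bk a : 𝔤), v⟫ := by
        rw [← CasAux.θ_sa, P.mem_𝔨.1 (bk a).2]
      rw [inner_smul_right, inner_add_right, h3]
      ring
    have h4 := CasAux.contract Q' y (fun a => (bk a : 𝔤)) E LinearMap.id hE
    simp only [LinearMap.id_apply] at h4
    rw [← h4, Finset.smul_sum, ← Finset.sum_add_distrib]
    refine Finset.sum_congr rfl fun j _ => ?_
    change _ = (2 : ℝ) • Q' (y j) ((1 / 2 : ℝ) • (y j + P.θ (y j)))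
    rw [map_smul, smul_smul, map_add]
    norm_num
  have hcas : cas P f x = -∑ i, Q' (bk i : 𝔤) (bk i : 𝔤) := by
    simp only [cas, Pi.neg_apply, Finset.sum_apply]
    rfl
  have hgoal : (∑ j, P.lD (y j) (P.lD (y j) f)) x = ∑ j, Q' (y j) (y j) := by
    rw [Finset.sum_apply]
    rfl
  rw [hgoal, Pi.sub_apply, Pi.smul_apply, Pi.smul_apply, hcas, eq_sub_of_add_eq hk, hSl, hSr]
  push_cast
  have h2 : (2 : ℝ) • ∑ i, Q' (bk i : 𝔤) (bk i : 𝔤) = (2 : ℂ) • ∑ i, Q' (bk i : 𝔤) (bk i : 𝔤) := by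
    rw [← Complex.coe_smul]
    norm_num
  rw [h2]
  module

end Pool.Agent.Helper28.SG
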